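import Mathlib
import Pool.Agent.X10.AI.Int3
import Pool.Agent.X10.AI.IntC2

set_option autoImplicit false

/-!
# MP_ce8d0c_nt: prime values of `⌊β b ^ n⌋ + c` over all exponents `n`

For `β > 0`, a base `b ≥ 2` and a shift `c` let `X b c β n = ⌊β b ^ n⌋ + c`.  For `β = 1 / (b + 1)`
and `c = 1` this is, for odd `n`, the number `Q (b, n) = (b ^ n + 1) / (b + 1)`.  We count the `n` for
which `X b c β n` itself is prime, over all exponents `n`, and bound the coincidences of prime values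
for different exponents or different shifts.
-/

namespace Pool.Agent.Results.MP_ce8d0c_nt.AllExponentsMetric

open Filter Topology MeasureTheory Asymptotics

/-- the integer `⌊β b ^ n⌋ + c` -/
noncomputable def X (b c : ℕ) (β : ℝ) (n : ℕ) : ℕ := ⌊β * (b : ℝ) ^ n⌋₊ + c

open Classical in
/-- the number of exponents `m` in `S` with `2 ≤ m ≤ n` for which `s m` is prime -/
noncomputable def M (s : ℕ → ℕ) (S : Set ℕ) (n : ℕ) : ℕ :=
  ((Finset.Icc 2 n).filter (fun m => m ∈ S ∧ (s m).Prime)).card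

open Classical in
/-- the sum of `1 / m` over the `m` in `S` with `2 ≤ m ≤ n` -/
noncomputable def V (S : Set ℕ) (n : ℕ) : ℝ :=
  ∑ m ∈ (Finset.Icc 2 n).filter (fun m => m ∈ S), 1 / (m : ℝ)

/-- The law with constant `κ` for the prime values of the sequence `s` of integers. -/
structure Law (s : ℕ → ℕ) (κ : ℝ) (S : Set ℕ) : Prop where
  /-- the number of all `m ≤ n` with `s m` prime -/
  all : (fun n : ℕ => (M s Set.univ n : ℝ) - κ * Real.log n) =O[atTop]
    (fun n : ℕ => Real.sqrt (Real.log n) * (Real.log (Real.log n)) ^ ((5 : ℝ) / 2))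
  /-- the number of `m ≤ n` in `S` with `s m` prime -/
  sets : Tendsto (V S) atTop atTop → (fun n : ℕ => (M s S n : ℝ) - κ * V S n) =O[atTop]
    (fun n : ℕ => Real.sqrt (V S n * Real.log (Real.log n)) *
      (Real.log (V S n * Real.log (Real.log n))) ^ 2)
  /-- there are infinitely many in `S` if and only if the sum of the reciprocals is infinite -/
  dichotomy : {m : ℕ | m ∈ S ∧ (s m).Prime}.Infinite ↔ Tendsto (V S) atTop atTop

lemma V_eq (S : Set ℕ) : V S = Pool.Agent.X10.AI.VS S := by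
  funext n
  unfold V Pool.Agent.X10.AI.VS Pool.Agent.X10.AI.wt
  rw [← Finset.sum_filter]
  refine Finset.sum_congr ?_ fun _ _ => rfl
  ext q
  simp only [Finset.mem_filter, Finset.mem_Icc, Finset.mem_range]
  constructor
  · rintro ⟨⟨h1, h2⟩, h3⟩
    exact ⟨by omega, h3, h1⟩
  · rintro ⟨h1, h2, h3⟩
    exact ⟨⟨h3, by omega⟩, h2⟩

lemma M_eq (s : ℕ → ℕ) (S : Set ℕ) (n : ℕ) : M s S n = Pool.Agent.X10.AI.cS S s n := by
  unfold M Pool.Agent.X10.AI.cS
  congr 1
  ext q
  simp only [Finset.mem_filter, Finset.mem_Icc, Finset.mem_range]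
  constructor
  · rintro ⟨⟨h1, h2⟩, h3, h4⟩
    exact ⟨by omega, h1, h3, h4⟩
  · rintro ⟨h1, h2, h3, h4⟩
    exact ⟨⟨h2, by omega⟩, h3, h4⟩

lemma law_of {s : ℕ → ℕ} {κ : ℝ} {S : Set ℕ}
    (h1 : Pool.Agent.X10.AI.Pt s κ Set.univ) (h2 : Pool.Agent.X10.AI.Pt s κ S) : Law s κ S := by
  refine ⟨?_, fun hS => ?_, ?_⟩
  · obtain ⟨B, hB, h⟩ := h1.law Pool.Agent.X10.AI.VS_univ_tendsto
    simp only [M_eq]
    exact Pool.Agent.X10.AI.bigO_all hB h
  · rw [V_eq] at hS ⊢
    obtain ⟨B, hB, h⟩ := h2.law hS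
    simp only [M_eq]
    exact Pool.Agent.TH888.R.bigO_set hB hS h
  · rw [V_eq]
    constructor
    · intro hi
      by_contra hn
      refine hi (((h2.fin hn).union (Set.finite_lt_nat 2)).subset fun m hm => ?_)
      by_cases h : 2 ≤ m
      · exact Or.inl ⟨h, hm⟩
      · exact Or.inr (by show m < 2; omega)
    · intro hS
      exact (h2.inf hS).mono fun m hm => hm.2

lemma wagstaff {b : ℕ} (hb : 2 ≤ b) {n : ℕ} (hn : Odd n) :
    (b + 1) * X b 1 (1 / ((b : ℝ) + 1)) n = b ^ n + 1 := by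
  obtain ⟨m, hm⟩ : b + 1 ∣ b ^ n + 1 := by
    have := hn.nat_add_dvd_pow_add_pow b 1
    rwa [one_pow] at this
  have hb0 : (0 : ℝ) < (b : ℝ) + 1 := by positivity
  have hb2 : (2 : ℝ) ≤ b := by exact_mod_cast hb
  have hmr : ((b : ℝ) + 1) * m = (b : ℝ) ^ n + 1 := by exact_mod_cast hm.symm
  have hm0 : 1 ≤ m := by
    rcases Nat.eq_zero_or_pos m with h | h
    · rw [h] at hm
      simp at hm
    · exact h
  have h0 : ⌊1 / ((b : ℝ) + 1) * (b : ℝ) ^ n⌋₊ = m - 1 := by
    rw [Nat.floor_eq_iff (by positivity), Nat.cast_sub hm0, Nat.cast_one]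
    have e : 1 / ((b : ℝ) + 1) * (b : ℝ) ^ n = m - 1 / ((b : ℝ) + 1) := by
      field_simp
      linarith
    rw [e]
    have h1 : 1 / ((b : ℝ) + 1) < 1 := by
      rw [div_lt_one hb0]; linarith
    have h2 : 0 < 1 / ((b : ℝ) + 1) := by positivity
    constructor <;> linarith
  have h1 : X b 1 (1 / ((b : ℝ) + 1)) n = m := by
    unfold X
    rw [h0]
    omega
  rw [h1, hm]

/-- (1) `X b 1 (1 / (b + 1)) n` is `Q (b, n) = (b ^ n + 1) / (b + 1)` for odd `n`.  (2) For every shift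
`c ≥ 1`, every set `S` of exponents and almost every `β > 0`, the law holds for `X b c β` with constant
`1 / log b` in all bases `b ≥ 2`.  (3) For every `W : ℕ → ℕ` with `∑ W m / m ^ 2 < ∞` and almost every
`β > 0`, in all bases `b ≥ 2` and for all shifts `c`, `c'`: for all large `m` there is no `n` with
`m ≤ n ≤ m + W m`, `(m, c) ≠ (n, c')` and `X b c β m`, `X b c' β n` both prime. -/
theorem result :
    (∀ b n : ℕ, 2 ≤ b → Odd n → (b + 1) * X b 1 (1 / ((b : ℝ) + 1)) n = b ^ n + 1) ∧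
    (∀ S : Set ℕ, ∀ᵐ β : ℝ, 0 < β → ∀ c : ℕ, 1 ≤ c → ∀ b : ℕ, 2 ≤ b →
      Law (X b c β) (1 / Real.log b) S) ∧
    ∀ W : ℕ → ℕ, Summable (fun m : ℕ => (W m : ℝ) / (m : ℝ) ^ 2) →
      ∀ᵐ β : ℝ, 0 < β → ∀ b : ℕ, 2 ≤ b → ∀ c c' : ℕ, ∀ᶠ m : ℕ in atTop, ∀ n : ℕ,
        m ≤ n → n ≤ m + W m → (m, c) ≠ (n, c') →
          ¬ ((X b c β m).Prime ∧ (X b c' β n).Prime) := by
  refine ⟨fun b n hb hn => wagstaff hb hn, fun S => ?_, fun W hW => ?_⟩
  · have h : ∀ᵐ β : ℝ, ∀ c b : ℕ, 2 ≤ b → 0 < β → Law (X b c β) (1 / Real.log b) S := by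
      rw [ae_all_iff]
      intro c
      rw [ae_all_iff]
      intro b
      by_cases hb : 2 ≤ b
      · filter_upwards [Pool.Agent.X10.AI.law_int hb c Set.univ,
          Pool.Agent.X10.AI.law_int hb c S] with β h1 h2 _ h0
        exact law_of (h1 h0) (h2 h0)
      · exact Eventually.of_forall fun β h => absurd h hb
    filter_upwards [h] with β hβ h0 c _ b hb
    exact hβ c b hb h0
  · have h : ∀ᵐ β : ℝ, ∀ b c c' : ℕ, 2 ≤ b → 0 < β → ∀ᶠ m : ℕ in atTop, ∀ n : ℕ,
        m ≤ n → n ≤ m + W m → (m = n → c ≠ c') →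
          ¬ ((X b c β m).Prime ∧ (X b c' β n).Prime) := by
      rw [ae_all_iff]
      intro b
      rw [ae_all_iff]
      intro c
      rw [ae_all_iff]
      intro c'
      by_cases hb : 2 ≤ b
      · filter_upwards [Pool.Agent.X10.AI.spacing_cross hb c c' W hW] with β h1 _ h0
        exact h1 h0
      · exact Eventually.of_forall fun β h => absurd h hb
    filter_upwards [h] with β hβ h0 b hb c c'
    filter_upwards [hβ b c c' hb h0] with m hm n h1 h2 h3
    refine hm n h1 h2 fun h4 h5 => h3 ?_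
    rw [h4, h5]

end Pool.Agent.Results.MP_ce8d0c_nt.AllExponentsMetric
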