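import Mathlib
import Pool.Agent.X191.CP.Cur
import Pool.Agent.H447R2.ML.Spec

set_option autoImplicit false

/-!
# Common exponents of two families `(x ^ p - c ^ p) / (x - c)`, for almost every real base

For real `x`, `c` with `|c| < x` and a prime `p` let `R x c p` be the `p`-rough part (the product,
with multiplicity, of the prime factors larger than `p`) of `⌊(x ^ p - c ^ p) / (x - c)⌋`.  For an
integer base `x = b` this is the generalized Wagstaff number `(b ^ p + 1) / (b + 1)` for `c = -1`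
(`p` odd, not dividing `b + 1`) and the repunit `(b ^ p - 1) / (b - 1)` for `c = 1` (`p` not dividing
`b - 1`).  We call `p` an exponent of `(x, c)` if `R x c p` is prime.

We prove: for reals `c ≠ c'` and almost every `x > max (1, |c|, |c'|)` only finitely many primes are
exponents of both `(x, c)` and `(x, c')`.  For `c = -1`, `c' = 1` these are the primes `p` for which
the Wagstaff number and the repunit (in base two: the Mersenne number) with the exponent `p` are both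
prime.  Moreover for almost every `x > 2` and every `ε > 0` there are only finitely many pairs
`p < q ≤ p + p / (log p) ^ (1 + ε)` of an exponent of one of `(x, -1)`, `(x, 1)` and an exponent of
the other; the same holds for the pairs of primes in any set with a finite sum of
`(log p / p) (log q / q)`.

The bounds for the measure of the joint events are in the starting library
(`Pool.Agent.W66C.near_c`, `Pool.Agent.H447R2.ML.pair_bound`).
-/

namespace Pool.Agent.Results.MP_ce8d0c_nt.CommonExponents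

open Filter Topology MeasureTheory

/-- The product, with multiplicity, of the prime factors of `m` that are larger than `p`. -/
def roughPart (p m : ℕ) : ℕ := (m.primeFactorsList.filter (fun r => p < r)).prod

/-- The `p`-rough part of `⌊(x ^ p - c ^ p) / (x - c)⌋`. -/
noncomputable def R (x c : ℝ) (p : ℕ) : ℕ := roughPart p ⌊(x ^ p - c ^ p) / (x - c)⌋₊

/-- `p` is prime and `R x c p` is prime. -/
def Hit (x c : ℝ) (p : ℕ) : Prop := p.Prime ∧ (R x c p).Prime

open Pool.Agent.X191.CP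
open Pool.Agent.W66C (Cur yy yy1 yy2 fam_cur measurable_yy)
open Pool.Agent.W66X (ae_of_exp')

/-- the special values -/
lemma special {a b : ℤ} (hab : IsCoprime a b) (h1 : -a < b) (h2 : b < a) {p : ℕ} (hp : p.Prime)
    (hpd : ¬ (p : ℤ) ∣ a - b) : (R a b p : ℤ) * (a - b) = a ^ p - b ^ p := by
  have hne : (a : ℝ) - b ≠ 0 := by
    have : (b : ℝ) < a := by exact_mod_cast h2
    linarith
  have h := Pool.Agent.H447R2.ML.rough_quot hab h1 h2 hp hpd
    (x := ((a : ℝ) ^ p - (b : ℝ) ^ p) / ((a : ℝ) - b)) (by field_simp)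
  have hgeom : (∑ i ∈ Finset.range p, a ^ i * b ^ (p - 1 - i)) * (a - b) = a ^ p - b ^ p :=
    (Commute.all a b).geom_sum₂_mul p
  rw [← h] at hgeom
  exact hgeom

noncomputable def sgn (c : ℝ) : ℝ := -(SignType.sign c : ℝ)

lemma sgn_le (c : ℝ) : |sgn c| ≤ 1 := by
  rw [sgn, abs_neg]
  rcases lt_trichotomy c 0 with h | h | h
  · rw [sign_neg h]; simp
  · rw [h]; simp
  · rw [sign_pos h]; simp

noncomputable def H (c : ℝ) (t : ℝ) : ℝ := -Real.log (Real.exp t - c)

noncomputable def H1 (c : ℝ) (t : ℝ) : ℝ := -(Real.exp t / (Real.exp t - c))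

noncomputable def H2 (c : ℝ) (t : ℝ) : ℝ :=
  -((Real.exp t * (Real.exp t - c) - Real.exp t * Real.exp t) / (Real.exp t - c) ^ 2)

lemma H_meas (c : ℝ) : Measurable (H c) := by unfold H; fun_prop

lemma pos_of {c c0 : ℝ} (hc : |c| ≤ Real.exp c0) {t : ℝ} (ht : c0 < t) :
    |c| < Real.exp t ∧ 0 < Real.exp t - c := by
  have h1 := Real.exp_lt_exp.2 ht
  have h3 := le_abs_self c
  exact ⟨by linarith, by linarith⟩

lemma m0_le {c c0 : ℝ} (hc0 : 0 ≤ c0) (hc : |c| ≤ Real.exp c0) : Real.log |c| ≤ 1 * c0 := by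
  rw [one_mul]
  rcases (abs_nonneg c).eq_or_lt with h | h
  · rw [← h, Real.log_zero]
    exact hc0
  · exact (Real.log_le_iff_le_exp h).2 hc

lemma fam {c c0 : ℝ} (hc0 : 0 ≤ c0) (hc : |c| ≤ Real.exp c0) :
    ∀ a0 a1 : ℝ, c0 < a0 → a0 < a1 → ∃ D : ℝ, 0 ≤ D ∧ ∀ᶠ p : ℕ in atTop,
      Cur a0 a1 D (H1 c) p (yy 1 (Real.log |c|) (sgn c) (H c) p)
        (yy1 1 (Real.log |c|) (sgn c) (H1 c) p) (yy2 1 (Real.log |c|) (sgn c) (H2 c) p) := by
  refine fam_cur one_pos (sgn_le c) (m0_le hc0 hc) (fun t ht => ?_) (fun t ht => ?_) ?_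
  · exact ((((Real.hasDerivAt_exp t).sub_const c).log (pos_of hc ht).2.ne')).neg
  · exact ((Real.hasDerivAt_exp t).div ((Real.hasDerivAt_exp t).sub_const c)
      (pos_of hc ht).2.ne').neg
  · refine ContinuousOn.neg (ContinuousOn.div (by fun_prop) (by fun_prop) fun t ht => ?_)
    exact pow_ne_zero 2 (pos_of hc ht).2.ne'

lemma value {c c0 : ℝ} (hc : |c| ≤ Real.exp c0) : ∀ t, c0 < t → ∀ᶠ p : ℕ in atTop, p.Prime →
    0 < ((Real.exp t) ^ p - c ^ p) / (Real.exp t - c) ∧
    Real.log (((Real.exp t) ^ p - c ^ p) / (Real.exp t - c)) =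
      yy 1 (Real.log |c|) (sgn c) (H c) p t := by
  intro t ht
  filter_upwards [eventually_ge_atTop 3] with p hp hpp
  have hodd : Odd p := hpp.odd_of_ne_two (by omega)
  obtain ⟨h2, hpos⟩ := pos_of hc ht
  have h3 : |c ^ p| < (Real.exp t) ^ p := by
    rw [abs_pow]
    exact pow_lt_pow_left₀ h2 (abs_nonneg _) (by omega)
  have h4 : 0 < (Real.exp t) ^ p - c ^ p := by
    have := le_abs_self (c ^ p)
    linarith
  have hE : 0 < Real.exp t ^ p := by positivity
  refine ⟨div_pos h4 hpos, ?_⟩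
  rw [Real.log_div h4.ne' hpos.ne']
  have e1 : sgn c * Real.exp (-(p * (1 * t - Real.log |c|))) = -(c ^ p / (Real.exp t) ^ p) := by
    rcases (abs_nonneg c).eq_or_lt with h | h
    · have hc : c = 0 := abs_eq_zero.1 h.symm
      have hp0 : p ≠ 0 := by omega
      rw [sgn, hc]
      simp [hp0]
    · have e2 : Real.exp (-(p * (1 * t - Real.log |c|))) = |c| ^ p / (Real.exp t) ^ p := by
        have e3 : -((p : ℝ) * (1 * t - Real.log |c|)) = (p : ℝ) * Real.log |c| - p * t := by ring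
        rw [e3, Real.exp_sub, Real.exp_nat_mul, Real.exp_nat_mul, Real.exp_log h]
      rw [e2]
      have e4 : sgn c * |c| ^ p = -c ^ p := by
        rw [sgn]
        rcases lt_or_gt_of_ne (abs_pos.1 h) with h5 | h5
        · rw [sign_neg h5, abs_of_neg h5, hodd.neg_pow]
          simp
        · rw [sign_pos h5, abs_of_pos h5]
          simp
      rw [← mul_div_assoc, e4, neg_div]
  have e5 : (Real.exp t) ^ p - c ^ p = (Real.exp t) ^ p * (1 + -(c ^ p / (Real.exp t) ^ p)) := by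
    field_simp
    ring
  have h6 : 0 < 1 + -(c ^ p / (Real.exp t) ^ p) := by
    have : c ^ p / (Real.exp t) ^ p < 1 := by
      rw [div_lt_one hE]
      linarith
    linarith
  unfold yy H
  rw [e1, e5, Real.log_mul hE.ne' h6.ne', ← Real.exp_nat_mul, Real.log_exp]
  ring

/-- pairs of levels of two families -/
lemma core {c c' c0 : ℝ} (hc0 : 0 ≤ c0) (hc : |c| ≤ Real.exp c0) (hc' : |c'| ≤ Real.exp c0)
    {S : Set (ℕ × ℕ)} (hS : ∀ x ∈ S, x.1.Prime ∧ x.2.Prime ∧ x.1 ≤ x.2)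
    (hsl : ∀ a0 a1 : ℝ, c0 < a0 → a0 < a1 → ∃ δ : ℝ, 0 < δ ∧ ∀ x ∈ S, ∀ t ∈ Set.Icc a0 a1,
      δ ≤ (x.2 : ℝ) - x.1 + (H1 c' t - H1 c t))
    (hsum : Summable (S.indicator (fun x : ℕ × ℕ => w x.1 * w x.2))) :
    ∀ᵐ x : ℝ, Real.exp c0 < x → ∀ᶠ p : ℕ in atTop, ∀ q : ℕ, (p, q) ∈ S →
      ¬ (Hit x c p ∧ Hit x c' q) := by
  have hmain := pairs_val hc0 (fun p => measurable_yy 1 (Real.log |c|) (sgn c) (H_meas c) p)
    (fun p => measurable_yy 1 (Real.log |c'|) (sgn c') (H_meas c') p) (fam hc0 hc) (fam hc0 hc')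
    (S := S) hS
    (by
      intro a0 a1 ha0 ha
      obtain ⟨δ, hδ, h⟩ := hsl a0 a1 ha0 ha
      refine ⟨min (δ / 2) 1, lt_min (by linarith) one_pos, min_le_right _ _, ?_⟩
      have e1 := yy1_close (m1 := 1) (c0 := c0) (H' := H1 c) one_pos (sgn_le c) (m0_le hc0 hc)
        (show (0 : ℝ) < δ / 4 by linarith) a0 a1 ha0
      have e2 := yy1_close (m1 := 1) (c0 := c0) (H' := H1 c') one_pos (sgn_le c') (m0_le hc0 hc')
        (show (0 : ℝ) < δ / 4 by linarith) a0 a1 ha0
      obtain ⟨P1, h1⟩ := eventually_atTop.1 e1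
      obtain ⟨P2, h2⟩ := eventually_atTop.1 e2
      filter_upwards [eventually_ge_atTop (P1 + P2)] with p hp q hpq t ht
      have hle := (hS _ hpq).2.2
      simp only at hle
      have g1 := abs_le.1 (h1 p (by omega) t ht)
      have g2 := abs_le.1 (h2 q (by omega) t ht)
      have g3 := h _ hpq t ht
      simp only at g3
      refine (min_le_left _ _).trans ?_
      linarith [g1.1, g1.2, g2.1, g2.2])
    hsum
    (val := fun p t => ((Real.exp t) ^ p - c ^ p) / (Real.exp t - c))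
    (val2 := fun p t => ((Real.exp t) ^ p - c' ^ p) / (Real.exp t - c')) (value hc) (value hc')
  have hfin := ae_of_exp' (P := fun x : ℝ => Real.exp c0 < x →
    ∀ᶠ p : ℕ in atTop, ∀ q : ℕ, (p, q) ∈ S → ¬ (Hit x c p ∧ Hit x c' q)) (by
    filter_upwards [hmain] with t ht hx
    filter_upwards [ht (Real.exp_lt_exp.1 hx)] with p hp q hpq hpair
    exact hp q hpq hpair.1.2 hpair.2.2)
  filter_upwards [hfin] with x hx h1
  exact hx ((Real.exp_pos _).trans h1) h1

lemma w_sq : Summable (fun p : ℕ => w p * w p) := by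
  have hlog : ∀ᶠ p : ℕ in atTop, ‖w p * w p‖ ≤ 1 / (p : ℝ) ^ (3 / 2 : ℝ) := by
    have := (isLittleO_log_rpow_rpow_atTop 2 (show (0 : ℝ) < 1 / 2 by norm_num)).bound
      (show (0 : ℝ) < 1 by norm_num)
    have h2 := (tendsto_natCast_atTop_atTop (R := ℝ)).eventually this
    filter_upwards [h2, eventually_ge_atTop 1] with p h2 hp
    have hp1 : (1 : ℝ) ≤ p := by exact_mod_cast hp
    rw [Real.norm_of_nonneg (mul_nonneg (w_nonneg _) (w_nonneg _))]
    rw [Real.norm_of_nonneg (Real.rpow_nonneg (Real.log_nonneg hp1) _),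
      Real.norm_of_nonneg (Real.rpow_nonneg (by linarith) _), one_mul, Real.rpow_two] at h2
    unfold w
    have e : (p : ℝ) ^ (3 / 2 : ℝ) * (p : ℝ) ^ (1 / 2 : ℝ) = p * p := by
      rw [← Real.rpow_add (by linarith)]
      norm_num
      rw [sq]
    rw [div_mul_div_comm, div_le_div_iff₀ (by positivity) (by positivity), one_mul, ← e]
    have h3 : (0 : ℝ) ≤ (p : ℝ) ^ (3 / 2 : ℝ) := by positivity
    nlinarith
  exact Summable.of_norm_bounded_eventually_nat (Real.summable_one_div_nat_rpow.2 (by norm_num)) hlog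

lemma diag_sum : Summable (({x : ℕ × ℕ | x.1.Prime ∧ x.1 = x.2}).indicator
    (fun x : ℕ × ℕ => w x.1 * w x.2)) := by
  refine summable_pairs (g := fun p => w p * w p) (fun x => ?_) (fun p => ?_) w_sq ?_
  · exact Set.indicator_nonneg (fun x _ => mul_nonneg (w_nonneg _) (w_nonneg _)) x
  · refine (Set.finite_singleton p).subset fun q hq => ?_
    have := Set.mem_of_indicator_ne_zero hq
    exact this.2.symm
  · refine Eventually.of_forall fun p => ?_
    have hs : ∀ q : ℕ, q ≠ p → ({x : ℕ × ℕ | x.1.Prime ∧ x.1 = x.2}).indicator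
        (fun x : ℕ × ℕ => w x.1 * w x.2) (p, q) = 0 := by
      intro q hq
      exact Set.indicator_of_notMem (fun h => hq h.2.symm) _
    rw [tsum_eq_single p hs]
    exact Set.indicator_le_self' (fun x _ => mul_nonneg (w_nonneg _) (w_nonneg _)) _

lemma H1_sub {c c' t : ℝ} (h1 : 0 < Real.exp t - c) (h2 : 0 < Real.exp t - c') :
    H1 c' t - H1 c t = Real.exp t * (c - c') / ((Real.exp t - c) * (Real.exp t - c')) := by
  unfold H1
  field_simp
  ring

/-- common exponents, ordered -/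
lemma common_lt {c c' : ℝ} (hlt : c' < c) : ∀ᵐ x : ℝ, max 1 (max |c| |c'|) < x →
    ∀ᶠ p : ℕ in atTop, ¬ (Hit x c p ∧ Hit x c' p) := by
  set c0 := Real.log (max 1 (max |c| |c'|)) with hc0d
  have hmax : (1 : ℝ) ≤ max 1 (max |c| |c'|) := le_max_left _ _
  have hmax0 : (0 : ℝ) < max 1 (max |c| |c'|) := by linarith
  have hc0 : 0 ≤ c0 := Real.log_nonneg hmax
  have hexp : Real.exp c0 = max 1 (max |c| |c'|) := Real.exp_log hmax0
  have hc : |c| ≤ Real.exp c0 := by
    rw [hexp]; exact (le_max_left _ _).trans (le_max_right _ _)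
  have hc' : |c'| ≤ Real.exp c0 := by
    rw [hexp]; exact (le_max_right _ _).trans (le_max_right _ _)
  have h := core hc0 hc hc' (S := {x : ℕ × ℕ | x.1.Prime ∧ x.1 = x.2})
    (fun x hx => ⟨hx.1, hx.2 ▸ hx.1, hx.2.le⟩)
    (by
      intro a0 a1 ha0 ha
      refine ⟨(c - c') / (4 * Real.exp a1), div_pos (by linarith) (by positivity), fun x hx t ht => ?_⟩
      obtain ⟨g1, g2⟩ := pos_of hc (ha0.trans_le ht.1)
      obtain ⟨g3, g4⟩ := pos_of hc' (ha0.trans_le ht.1)
      rw [H1_sub g2 g4]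
      have e0 : (x.2 : ℝ) - x.1 = 0 := by rw [hx.2]; ring
      rw [e0, zero_add]
      have hE : 0 < Real.exp t := Real.exp_pos t
      have g5 : Real.exp t - c ≤ 2 * Real.exp t := by
        have := neg_abs_le c
        linarith
      have g6 : Real.exp t - c' ≤ 2 * Real.exp t := by
        have := neg_abs_le c'
        linarith
      have g7 : (Real.exp t - c) * (Real.exp t - c') ≤ (2 * Real.exp t) * (2 * Real.exp t) :=
        mul_le_mul g5 g6 g4.le (by positivity)
      have g8 : Real.exp t ≤ Real.exp a1 := Real.exp_le_exp.2 ht.2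
      rw [div_le_div_iff₀ (by positivity) (by positivity)]
      have g9 : 0 < c - c' := by linarith
      calc (c - c') * ((Real.exp t - c) * (Real.exp t - c')) ≤
            (c - c') * ((2 * Real.exp t) * (2 * Real.exp t)) := by gcongr
        _ = Real.exp t * (c - c') * (4 * Real.exp t) := by ring
        _ ≤ _ := by gcongr)
    diag_sum
  filter_upwards [h] with x hx h1
  rw [hexp] at hx
  filter_upwards [hx h1] with p hp hpair
  exact hp p ⟨hpair.1.1, rfl⟩ hpair

lemma common {c c' : ℝ} (hne : c ≠ c') : ∀ᵐ x : ℝ, max 1 (max |c| |c'|) < x →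
    ∀ᶠ p : ℕ in atTop, ¬ (Hit x c p ∧ Hit x c' p) := by
  rcases lt_or_gt_of_ne hne with h | h
  · filter_upwards [common_lt h] with x hx h1
    rw [max_comm |c| |c'|] at h1
    filter_upwards [hx h1] with p hp hpair
    exact hp ⟨hpair.2, hpair.1⟩
  · exact common_lt h

/-- mixed pairs for the parameters `1`, `-1` -/
lemma mixed {c c' : ℝ} (hcc : (c = -1 ∧ c' = 1) ∨ (c = 1 ∧ c' = -1)) (S : Set (ℕ × ℕ))
    (hS : Summable (fun x : ℕ × ℕ => {x | x ∈ S ∧ x.1.Prime ∧ x.2.Prime ∧ x.1 < x.2}.indicator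
      (fun x : ℕ × ℕ => Real.log x.1 / x.1 * (Real.log x.2 / x.2)) x)) :
    ∀ᵐ x : ℝ, 2 < x → ∀ᶠ p : ℕ in atTop, ∀ q : ℕ, (p, q) ∈ S → p < q →
      ¬ (Hit x c p ∧ Hit x c' q) := by
  classical
  have hexp : Real.exp (Real.log 2) = 2 := Real.exp_log (by norm_num)
  have hc : |c| ≤ Real.exp (Real.log 2) := by
    rw [hexp]
    rcases hcc with ⟨h, -⟩ | ⟨h, -⟩ <;> rw [h] <;> norm_num
  have hc' : |c'| ≤ Real.exp (Real.log 2) := by
    rw [hexp]
    rcases hcc with ⟨-, h⟩ | ⟨-, h⟩ <;> rw [h] <;> norm_num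
  have h := core (Real.log_nonneg (by norm_num)) hc hc'
    (S := {x | x ∈ S ∧ x.1.Prime ∧ x.2.Prime ∧ x.1 < x.2 ∧ 3 ≤ x.1})
    (fun x hx => ⟨hx.2.1, hx.2.2.1, hx.2.2.2.1.le⟩)
    (by
      intro a0 a1 ha0 ha
      refine ⟨1 / 2, by norm_num, fun x hx t ht => ?_⟩
      obtain ⟨_, hpp, hqp, hlt, h3⟩ := hx
      obtain ⟨g1, g2⟩ := pos_of hc (ha0.trans_le ht.1)
      obtain ⟨g3, g4⟩ := pos_of hc' (ha0.trans_le ht.1)
      rw [H1_sub g2 g4]
      have g5 : (x.1 : ℝ) + 2 ≤ x.2 := by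
        have o1 : Odd x.1 := hpp.odd_of_ne_two (by omega)
        have o2 : Odd x.2 := hqp.odd_of_ne_two (by omega)
        obtain ⟨a, ha⟩ := o1
        obtain ⟨b, hb⟩ := o2
        exact_mod_cast (by omega : x.1 + 2 ≤ x.2)
      have hE : 2 < Real.exp t := by
        rw [← hexp]
        exact Real.exp_lt_exp.2 (ha0.trans_le ht.1)
      have g6 : -(3 / 2) ≤ Real.exp t * (c - c') / ((Real.exp t - c) * (Real.exp t - c')) := by
        rw [le_div_iff₀ (mul_pos g2 g4)]
        rcases hcc with ⟨h1, h2⟩ | ⟨h1, h2⟩ <;> rw [h1, h2] <;> nlinarith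
      linarith)
    (by
      refine Summable.of_nonneg_of_le (fun x => ?_) (fun x => ?_) hS
      · exact Set.indicator_nonneg (fun x _ => mul_nonneg (w_nonneg _) (w_nonneg _)) x
      · refine Set.indicator_le_indicator_of_subset ?_ (fun x => mul_nonneg (w_nonneg _) (w_nonneg _)) x
        intro x hx
        exact ⟨hx.1, hx.2.1, hx.2.2.1, hx.2.2.2.1⟩)
  filter_upwards [h] with x hx h1
  rw [hexp] at hx
  filter_upwards [hx h1, eventually_ge_atTop 3] with p hp h3 q hpq hlt hpair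
  exact hp q ⟨hpq, hpair.1.1, hpair.2.1, hlt, h3⟩ hpair

lemma mixed_close {c c' : ℝ} (hcc : (c = -1 ∧ c' = 1) ∨ (c = 1 ∧ c' = -1)) {ε : ℝ} (hε : 0 < ε) :
    ∀ᵐ x : ℝ, 2 < x → ∀ᶠ p : ℕ in atTop, ∀ q : ℕ, (q : ℝ) ≤ p + p / Real.log p ^ (1 + ε) → p < q →
      ¬ (Hit x c p ∧ Hit x c' q) :=
  mixed hcc {x | (x.2 : ℝ) ≤ x.1 + wid ε x.1} (by
    refine (pair_sum hε).congr fun x => ?_
    classical
    rw [Set.indicator_apply]
    refine if_congr ?_ rfl rfl
    simp only [Set.mem_ofPred_eq]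
    tauto)

lemma wid_anti {ε δ : ℝ} (h : δ ≤ ε) {p : ℕ} (hp : 1 ≤ Real.log p) :
    (p : ℝ) / Real.log p ^ (1 + ε) ≤ p / Real.log p ^ (1 + δ) := by
  refine div_le_div_of_nonneg_left (Nat.cast_nonneg _) (Real.rpow_pos_of_pos (by linarith) _) ?_
  exact Real.rpow_le_rpow_of_exponent_le hp (by linarith)

theorem result :
    -- the generalized Wagstaff numbers and the repunits are the values at integer bases
    (∀ b : ℕ, 2 ≤ b → ∀ p : ℕ, p.Prime → p ≠ 2 →
      (¬ p ∣ b + 1 → (R b (-1) p : ℤ) * (b + 1) = b ^ p + 1) ∧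
      (¬ p ∣ b - 1 → (R b 1 p : ℤ) * (b - 1) = b ^ p - 1)) ∧
    -- common exponents
    (∀ c c' : ℝ, c ≠ c' → ∀ᵐ x : ℝ, max 1 (max |c| |c'|) < x →
      ∀ᶠ p : ℕ in atTop, ¬ (Hit x c p ∧ Hit x c' p)) ∧
    -- close mixed pairs
    (∀ᵐ x : ℝ, 2 < x → ∀ ε : ℝ, 0 < ε → ∀ᶠ p : ℕ in atTop, ∀ q : ℕ,
      p < q → (q : ℝ) ≤ p + p / Real.log p ^ (1 + ε) →
        ¬ (Hit x (-1) p ∧ Hit x 1 q) ∧ ¬ (Hit x 1 p ∧ Hit x (-1) q)) ∧
    -- mixed pairs in a set
    (∀ S : Set (ℕ × ℕ),
      Summable (fun x : ℕ × ℕ => {x | x ∈ S ∧ x.1.Prime ∧ x.2.Prime ∧ x.1 < x.2}.indicator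
        (fun x : ℕ × ℕ => Real.log x.1 / x.1 * (Real.log x.2 / x.2)) x) →
      ∀ᵐ x : ℝ, 2 < x → ∀ᶠ p : ℕ in atTop, ∀ q : ℕ, (p, q) ∈ S → p < q →
        ¬ (Hit x (-1) p ∧ Hit x 1 q) ∧ ¬ (Hit x 1 p ∧ Hit x (-1) q)) := by
  refine ⟨fun b hb p hp hp2 => ⟨fun h => ?_, fun h => ?_⟩, fun c c' hne => common hne, ?_,
    fun S hS => ?_⟩
  · have h1 := special (a := (b : ℤ)) (b := -1) (IsCoprime.neg_right isCoprime_one_right)
      (by omega) (by omega) hp (by
        intro hd
        apply h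
        have : ((p : ℕ) : ℤ) ∣ ((b + 1 : ℕ) : ℤ) := by push_cast; simpa using hd
        exact_mod_cast this)
    rw [(hp.odd_of_ne_two hp2).neg_one_pow] at h1
    push_cast at h1
    linarith
  · have h1 := special (a := (b : ℤ)) (b := 1) isCoprime_one_right
      (by omega) (by omega) hp (by
        intro hd
        apply h
        have e : ((b - 1 : ℕ) : ℤ) = (b : ℤ) - 1 := by omega
        have : ((p : ℕ) : ℤ) ∣ ((b - 1 : ℕ) : ℤ) := by rw [e]; exact hd
        exact_mod_cast this)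
    rw [one_pow] at h1
    push_cast at h1
    exact h1
  · have h := ae_all_iff.2 fun n : ℕ =>
      (mixed_close (c := -1) (c' := 1) (Or.inl ⟨rfl, rfl⟩)
        (show (0 : ℝ) < 1 / ((n : ℝ) + 1) by positivity)).and
      (mixed_close (c := 1) (c' := -1) (Or.inr ⟨rfl, rfl⟩)
        (show (0 : ℝ) < 1 / ((n : ℝ) + 1) by positivity))
    filter_upwards [h] with x h hx ε hε
    obtain ⟨n, hn⟩ := exists_nat_one_div_lt hε
    have hlog : Tendsto (fun p : ℕ => Real.log (p : ℝ)) atTop atTop :=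
      Real.tendsto_log_atTop.comp tendsto_natCast_atTop_atTop
    filter_upwards [(h n).1 hx, (h n).2 hx, hlog.eventually_ge_atTop 1] with p h1 h2 hl q hlt hle
    have hle' := hle.trans (add_le_add_right (wid_anti hn.le hl) (p : ℝ))
    exact ⟨h1 q hle' hlt, h2 q hle' hlt⟩
  · filter_upwards [mixed (c := -1) (c' := 1) (Or.inl ⟨rfl, rfl⟩) S hS,
      mixed (c := 1) (c' := -1) (Or.inr ⟨rfl, rfl⟩) S hS] with x h1 h2 hx
    filter_upwards [h1 hx, h2 hx] with p g1 g2 q hpq hlt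
    exact ⟨g1 q hpq hlt, g2 q hpq hlt⟩

end Pool.Agent.Results.MP_ce8d0c_nt.CommonExponents
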