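import Mathlib
import Pool.Agent.W66.LU

set_option autoImplicit false

/-!
# The Lenstra-Pomerance-Wagstaff law for random digits in place of those of `(b ^ p + 1) / (b + 1)`

Let `b ≥ 2`.  For a sequence `d` of digits in base `b` and a prime `p` let `W b d p` be the
`p`-rough part (the product, with multiplicity, of the prime factors larger than `p`) of the number
`∑ i < p, d i * b ^ i`.  For the sequence `1, b - 1, 0, b - 1, 0, ...` and every odd prime `p` not
dividing `b + 1` this is the generalized Wagstaff number `(b ^ p + 1) / (b + 1)` itself.  Let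
`M b d n` be the number of primes `p ≤ n` with `W b d p` prime.  We prove that for almost every
`d` (independent uniform digits) with `d 0` coprime to `b`, the limit of `M b d n / log n` exists
and equals `e ^ γ / log b`.
-/

namespace Pool.Agent.Results.MP_ce8d0c_nt.LowDigits

open Filter Topology MeasureTheory

/-- The product, with multiplicity, of the prime factors of `m` that are larger than `p`. -/
def roughPart (p m : ℕ) : ℕ := (m.primeFactorsList.filter (fun r => p < r)).prod

/-- The number with base `b` digits `d (p - 1), ..., d 1, d 0` (last digit `d 0`). -/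
def low (b : ℕ) (d : ℕ → Fin b) (p : ℕ) : ℕ := ∑ i ∈ Finset.range p, (d i : ℕ) * b ^ i

/-- The `p`-rough part of the number formed by the first `p` terms of the digit sequence `d`. -/
def W (b : ℕ) (d : ℕ → Fin b) (p : ℕ) : ℕ := roughPart p (low b d p)

/-- The number of primes `p ≤ n` for which `W b d p` is prime. -/
def M (b : ℕ) (d : ℕ → Fin b) (n : ℕ) : ℕ :=
  ((Finset.range (n + 1)).filter (fun p => p.Prime ∧ (W b d p).Prime)).card

/-- The digit sequence `1, b - 1, 0, b - 1, 0, ...` -/
def wag (b : ℕ) [NeZero b] (i : ℕ) : Fin b :=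
  Fin.ofNat b (if i = 0 then 1 else if i % 2 = 1 then b - 1 else 0)

theorem wag_val {b : ℕ} [NeZero b] (hb : 2 ≤ b) (i : ℕ) :
    (wag b i : ℕ) = if i = 0 then 1 else if i % 2 = 1 then b - 1 else 0 := by
  unfold wag
  rw [Fin.val_ofNat]
  refine Nat.mod_eq_of_lt ?_
  split_ifs <;> omega

theorem low_wag {b : ℕ} [NeZero b] (hb : 2 ≤ b) (k : ℕ) :
    low b (wag b) (2 * k + 1) * (b + 1) = b ^ (2 * k + 1) + 1 := by
  induction k with
  | zero =>
    have h : low b (wag b) (2 * 0 + 1) = 1 := by
      unfold low
      simp [wag_val hb]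
    rw [h]
    simp
  | succ k ih =>
    have e : low b (wag b) (2 * (k + 1) + 1) =
        low b (wag b) (2 * k + 1) + (b - 1) * b ^ (2 * k + 1) := by
      have e1 : 2 * (k + 1) + 1 = (2 * k + 1) + 1 + 1 := by ring
      rw [e1]
      unfold low
      rw [Finset.sum_range_succ, Finset.sum_range_succ, wag_val hb, wag_val hb]
      have h1 : ¬ (2 * k + 1 = 0) := by omega
      have h2 : (2 * k + 1) % 2 = 1 := by omega
      have h3 : ¬ (2 * k + 1 + 1 = 0) := by omega
      have h4 : ¬ ((2 * k + 1 + 1) % 2 = 1) := by omega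
      rw [if_neg h1, if_pos h2, if_neg h3, if_neg h4]
      ring
    rw [e, add_mul, ih]
    obtain ⟨c, rfl⟩ : ∃ c, b = c + 2 := ⟨b - 2, by omega⟩
    have : c + 2 - 1 = c + 1 := by omega
    rw [this]
    ring

/-- For the sequence `wag b` the numbers `W` are the generalized Wagstaff numbers, and for almost
every sequence of digits with `d 0` coprime to `b` the asymptotic law holds. -/
theorem result (b : ℕ) [NeZero b] (hb : 2 ≤ b) :
    (∀ p : ℕ, p.Prime → p ≠ 2 → ¬ p ∣ b + 1 → W b (wag b) p = (b ^ p + 1) / (b + 1)) ∧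
    (∀ᵐ d : ℕ → Fin b ∂(Measure.infinitePi
        (fun _ : ℕ => ProbabilityTheory.uniformOn (Set.univ : Set (Fin b)))),
      Nat.Coprime (d 0 : ℕ) b → Tendsto (fun n : ℕ => (M b d n : ℝ) / Real.log n) atTop
        (𝓝 (Real.exp Real.eulerMascheroniConstant / Real.log b))) := by
  refine ⟨fun p hp hp2 hpd => ?_, ?_⟩
  · obtain ⟨k, hk⟩ := hp.odd_of_ne_two hp2
    have h1 : low b (wag b) p * (b + 1) = b ^ p + 1 := by
      rw [hk]
      exact low_wag hb k
    have h2 : W b (wag b) p =
        Pool.Agent.H305R2.roughPart p (low b (wag b) p) := rfl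
    rw [h2, Pool.Agent.W66L.rough_wagstaff hb hp hp2 hpd h1, ← h1,
      Nat.mul_div_cancel _ (Nat.succ_pos b)]
  · have h := Pool.Agent.W66L.law_all (b := b) (μ := Pool.Agent.W66L.digitMeasure b)
      hb (Pool.Agent.W66L.full_digits b)
    have h' : ∀ᵐ d : ℕ → Fin b ∂(Measure.infinitePi
        (fun _ : ℕ => ProbabilityTheory.uniformOn (Set.univ : Set (Fin b)))),
        (Pool.Agent.W66L.dsum b 1 d).Coprime b →
          Tendsto (fun n : ℕ => (Pool.Agent.W66L.cntR
            (fun p => Pool.Agent.W66L.dsum b p d) n : ℝ) / Real.log n) atTop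
            (𝓝 (Real.exp Real.eulerMascheroniConstant / Real.log (b : ℝ))) := h
    filter_upwards [h'] with d hd hu
    have hc : (Pool.Agent.W66L.dsum b 1 d).Coprime b := by
      unfold Pool.Agent.W66L.dsum
      simpa using hu
    refine (hd hc).congr fun n => ?_
    have h4 : Pool.Agent.W66L.cntR (fun p => Pool.Agent.W66L.dsum b p d) n = M b d n := by
      unfold Pool.Agent.W66L.cntR M
      congr 1
      ext p
      simp only [Finset.mem_filter, Finset.mem_Icc, Finset.mem_range]
      constructor
      · rintro ⟨⟨h5, h6⟩, h7, h8⟩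
        exact ⟨by omega, h7, h8⟩
      · rintro ⟨h6, h7, h8⟩
        exact ⟨⟨h7.pos, by omega⟩, h7, h8⟩
    rw [h4]

end Pool.Agent.Results.MP_ce8d0c_nt.LowDigits
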