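import Pool.Agent.X163.RF.C2

set_option autoImplicit false

/-!
# Generalized Wagstaff numbers of prime exponent all of whose prime factors are beyond the record size

Let `Q(b, n) = (b ^ n + 1) / (b + 1)`, `n` odd. The prime factors of `Q(b, p)`, `p` an odd prime, `p ∤ b + 1`, are of the form
`2 k p + 1`. For at least `X ^ (9 / 10)` primes `p` in `(X, 3 X]` (in any class modulo a squarefree number) they all have
`k > c f(p)`, for all bases `b` at once, where `f(p) = log p (log₂ p)² log₄ p / (log₃ p)²` (iterated natural logarithms) is the size of the gaps between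
primes produced by the starting library, and even `k > c f(p) log₂ p` if `k` is a prime. The same primes `p` work
for the primes `q ≠ p` which divide `Q(b, m p)` but not `Q(b, m)`, for all odd `m`.

Proof: the record covering sieve with a prime in the middle (starting library, `Pool.Agent.TH101.RG`, helper101) in the form of
`Pool.Agent.X34.M.twoSets` (helper34), and the order of `(-b) ^ m` modulo the prime factors.
-/

namespace Pool.Agent.Results.MP_ce8d0c_nt.RecordFactors

/-- The record scale `f(x) = log x (log₂ x)² log₄ x / (log₃ x)²` (iterated natural logarithms). -/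
noncomputable def f (x : ℝ) : ℝ :=
  Real.log x * (Real.log (Real.log x)) ^ 2 * Real.log (Real.log (Real.log (Real.log x))) /
    (Real.log (Real.log (Real.log x))) ^ 2

/-- `q = 2 k p + 1` with `k > c f(p)`, and `k > c f(p) log log p` in case `k` is a prime. -/
def Beyond (c : ℝ) (p q : ℕ) : Prop := ∃ k : ℕ, q = 2 * k * p + 1 ∧ c * f p < k ∧
  (k.Prime → c * (f p * Real.log (Real.log p)) < k)

/-- `Q(b, n) = (b ^ n + 1) / (b + 1)` (an exact division for odd `n`). -/
def Q (b n : ℕ) : ℕ := (b ^ n + 1) / (b + 1)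

/-- For every squarefree `d` there is `c > 0` such that for all large `X` and all `h` prime to `d` at least
`X ^ (9 / 10)` primes `p` with `X < p ≤ 3 X`, `p ≡ h (mod d)` have the following properties.
(1) For all `b` with `p ∤ b + 1`, all prime factors `q` of `Q(b, p)` are beyond the record size (`Beyond c p q`).
(2) For all `b` and all odd `m`, the same holds for all primes `q ≠ p` which divide `Q(b, m p)` but not `Q(b, m)`. -/
theorem result (d : ℕ) (hd : Squarefree d) : ∃ c : ℝ, 0 < c ∧ ∃ X₀ : ℝ, ∀ X : ℝ, X₀ ≤ X →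
    ∀ h : ℕ, h.Coprime d →
    X ^ (9 / 10 : ℝ) ≤ ({p : ℕ | p.Prime ∧ X < p ∧ (p : ℝ) ≤ 3 * X ∧ p ≡ h [MOD d] ∧
      (∀ b : ℕ, ¬ p ∣ b + 1 → ∀ q : ℕ, q.Prime → q ∣ Q b p → Beyond c p q) ∧
      (∀ b m : ℕ, Odd m → ∀ q : ℕ, q.Prime → q ≠ p → q ∣ Q b (m * p) → ¬ q ∣ Q b m →
        Beyond c p q)}.ncard : ℝ) := by
  obtain ⟨c, hc, hX⟩ := Pool.Agent.X163.RF.wagstaff d hd
  obtain ⟨X₀, hX₀⟩ := Filter.eventually_atTop.1 hX
  exact ⟨c, hc, X₀, hX₀⟩

end Pool.Agent.Results.MP_ce8d0c_nt.RecordFactors
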